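import Mathlib
import Pool.Agent.Helper53.CY.Main

/-!
# Topological types of Calabi-Yau varieties: reduction to the simply connected irreducible ones

Let `T` be the smooth projective varieties with numerically trivial canonical bundle, of all
dimensions, with their invariants (`Theory`), and suppose the known facts `IsKnown`. The universal cover
of `X` is `ℂ ^ q × cov X`, where `cov X` is a simply connected variety of dimension `dim X - q`.

(1) Let `n ≥ 3` and `d ≤ n`. The varieties `X` of dimension `n` with `dim (cov X) = d` have only
finitely many topological types if and only if the simply connected ones of dimension `d` have.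
(For `d = n` these are the varieties of dimension `n` with finite fundamental group.)

(2) Let `n ≥ 3`. The varieties of dimension `n` have only finitely many topological types if and only
if for `3 ≤ d ≤ n` the irreducible simply connected ones of dimension `d` have.

(3) The question has a positive answer if and only if for each `d ≥ 3` the irreducible simply connected
varieties of dimension `d` have only finitely many topological types.

(4) Without any finiteness assumption: the varieties of dimension `n ≥ 3` with a given topological type
of `cov X` have only finitely many topological types.

The proof: there are finitely many fundamental groups for a given `cov X` (library); for a given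
fundamental group `Γ` the homotopy type of `X` with its rational Pontryagin classes is given by a map
from `BΓ` to a classifying space which is trivial on a subgroup of finite index, there are only finitely
many such maps (`finite_virt`); the simple homotopy type by an element of a finite group; and the
homeomorphism type by an orbit of the group of the simple self-homotopy equivalences of `X` on the
structure group. The transfers for the coverings `X → X` which are given by `x ↦ k x` on `ℂ ^ q` act on
the structure group; they map the class of `X'` to points of its orbit, because `X'` has the
corresponding coverings, and the eigenvalues are `k ^ c` with `c > 0`, because `ℂ ^ q` and the fixed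
point sets in it have even real dimensions. So there are only finitely many such orbits
(`finite_orbits`).
-/

set_option autoImplicit false

namespace Pool.Agent.Results.MP_3d72f2_ag.ReductionToSimplyConnected

open Pool.Agent.Helper53.CY

theorem result (T : Theory) (hT : IsKnown T) :
    (∀ n d, 3 ≤ n → d ≤ n →
      ((T.types n fun X => T.dim (T.cov X) = d).Finite ↔ (T.types d T.SC).Finite)) ∧
    (∀ n, 3 ≤ n → ((T.types n fun X => Finite (T.π X)).Finite ↔ (T.types n T.SC).Finite)) ∧
    (∀ n, 3 ≤ n → ((T.types n fun _ => True).Finite ↔
      ∀ d, 3 ≤ d → d ≤ n → (T.types d fun X => T.Irr X ∧ T.SC X).Finite)) ∧
    ((∀ n, 3 ≤ n → (T.types n fun _ => True).Finite) ↔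
      ∀ d, 3 ≤ d → (T.types d fun X => T.Irr X ∧ T.SC X).Finite) ∧
    ∀ n, 3 ≤ n → ∀ t, (T.types n fun X => T.top (T.cov X) = t).Finite := by
  refine ⟨fun n d hn hd => types_dim hT hn hd fun h => types_small hT h, fun n hn => ?_,
    fun n hn => types_iff hT hn, ⟨fun h d hd => ?_, fun h n hn => ?_⟩, fun n hn t =>
    types_cov hT hn t⟩
  · have h1 : (T.types n fun X => Finite (T.π X)) = T.types n fun X => T.dim (T.cov X) = n := by
      ext t
      constructor
      · rintro ⟨X, h2, h3, h4⟩
        exact ⟨X, h2, ((hT.cov_fin X).1 h3).trans h2, h4⟩
      · rintro ⟨X, h2, h3, h4⟩
        exact ⟨X, h2, (hT.cov_fin X).2 (h3.trans h2.symm), h4⟩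
    rw [h1]
    exact types_dim hT hn le_rfl fun h => types_small hT h
  · exact (types_iff hT hd).1 (h d hd) d hd le_rfl
  · exact (types_iff hT hn).2 fun d hd _ => h d hd

end Pool.Agent.Results.MP_3d72f2_ag.ReductionToSimplyConnected
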